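import Pool.Agent.Helper51.BW.Spec

/-!
# BW part QL1: number of visits, first type
-/

set_option autoImplicit false

open MeasureTheory Filter Topology

namespace Pool.Agent.Helper16.BW.QL1

open Pool.Agent.Helper51.BW

variable {d : ℕ} {Ω : Type}

theorem meas_past (X : ℕ → ℕ → Ω → V d) {i m : ℕ} (hm : m < i) (n k : ℕ) :
    @Measurable Ω (V d) (past X i n) _ (X m k) := by
  rw [measurable_iff_comap_le]
  refine le_trans ?_ le_sup_left
  exact le_trans (le_iSup (fun s => MeasurableSpace.comap (X m s) inferInstance) k)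
    (le_iSup₂ (f := fun m (_ : m < i) => ⨆ s, MeasurableSpace.comap (X m s) inferInstance) m hm)

theorem sig0_le (X : ℕ → ℕ → Ω → V d) {i : ℕ} (hi : 1 ≤ i) (n : ℕ) : sig0 X ≤ past X i n := by
  unfold sig0
  refine iSup_le fun s => ?_
  exact (meas_past X (m := 0) hi n s).comap_le

theorem meas_eq {m0 : MeasurableSpace Ω} {f g : Ω → V d} (hf : Measurable f)
    (hg : Measurable g) : MeasurableSet {ω | f ω = g ω} :=
  (hf.prodMk hg) (Set.to_countable {p : V d × V d | p.1 = p.2}).measurableSet

theorem meas_trace {m0 : MeasurableSpace Ω} {Y : ℕ → Ω → V d} (hY : ∀ n, Measurable (Y n))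
    {f g : Ω → V d} (hf : Measurable f) (hg : Measurable g) :
    MeasurableSet {ω | Trace (fun s => Y s ω) (f ω) (g ω)} := by
  have e : {ω | Trace (fun s => Y s ω) (f ω) (g ω)}
      = ⋃ n, ({ω | Y n ω = f ω} ∩ {ω | Y (n + 1) ω = g ω}) ∪
        ({ω | Y n ω = g ω} ∩ {ω | Y (n + 1) ω = f ω}) := by
    ext ω
    simp only [Trace, Set.mem_ofPred_eq, Set.mem_iUnion, Set.mem_union, Set.mem_inter_iff]
  rw [e]
  exact MeasurableSet.iUnion fun n =>
    ((meas_eq (hY n) hf).inter (meas_eq (hY (n + 1)) hg)).union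
      ((meas_eq (hY n) hg).inter (meas_eq (hY (n + 1)) hf))

theorem meas_path {m0 : MeasurableSpace Ω} {Y : ℕ → Ω → V d} (hY : ∀ n, Measurable (Y n)) :
    MeasurableSet {ω | PathHyp (fun n => Y n ω)} := by
  have e : {ω | PathHyp (fun n => Y n ω)}
      = {ω | Y 0 ω = (fun _ => (0 : V d)) ω} ∩
        ⋂ t, ⋃ e' : Pool.Agent.Helper51.BW.D d,
          {ω | Y (t + 1) ω = (fun ω => Y t ω + dir e') ω} := by
    ext ω
    simp only [PathHyp, Set.mem_ofPred_eq, Set.mem_iUnion, Set.mem_iInter, Set.mem_inter_iff]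
  rw [e]
  refine (meas_eq (hY 0) measurable_const).inter (MeasurableSet.iInter fun t =>
    MeasurableSet.iUnion fun e' => meas_eq (hY (t + 1)) ?_)
  exact (hY t).add_const _

/-- the part of the regularity which only depends on the walks of index `< i` -/
def A (X : ℕ → ℕ → Ω → V d) (i : ℕ) : Set Ω :=
  {ω | PathHyp (fun n => X 0 n ω)} ∩ ⋂ m : ℕ, ⋂ (_ : m + 1 < i), ⋂ n : ℕ,
    {ω | Trace (fun s => X m s ω) (X (m + 1) n ω) (X (m + 1) (n + 1) ω)}

theorem meas_A (X : ℕ → ℕ → Ω → V d) {i : ℕ} (hi : 1 ≤ i) (n : ℕ) :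
    MeasurableSet[past X i n] (A X i) := by
  unfold A
  refine MeasurableSet.inter (meas_path fun n' => meas_past X (m := 0) hi n n')
    (MeasurableSet.iInter fun m => MeasurableSet.iInter fun hm => MeasurableSet.iInter fun k => ?_)
  exact meas_trace (fun s => meas_past X (m := m) (by omega) n s)
    (meas_past X hm n k) (meas_past X hm n (k + 1))

theorem Reg_A {X : ℕ → ℕ → Ω → V d} {i : ℕ} {ω : Ω} (h : Reg X i ω) : ω ∈ A X i := by
  refine ⟨h.1 0 (Nat.zero_le i), ?_⟩
  simp only [Set.mem_iInter, Set.mem_ofPred_eq]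
  intro m hm n
  exact h.2.1 m (by omega) n

theorem trace_symm {S : ℕ → V d} {x y : V d} (h : Trace S x y) : Trace S y x := by
  obtain ⟨n, hn⟩ := h
  exact ⟨n, hn.symm⟩

/-- nested traces -/
theorem nest {Y : ℕ → ℕ → V d} : ∀ (i : ℕ),
    (∀ m < i, ∀ n, Trace (Y m) (Y (m + 1) n) (Y (m + 1) (n + 1))) →
    ∀ x y, Trace (Y i) x y → Trace (Y 0) x y := by
  intro i
  induction i with
  | zero => intro _ x y h; exact h
  | succ i ih =>
    intro h x y hxy
    apply ih (fun m hm n => h m (by omega) n)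
    obtain ⟨n, hn | hn⟩ := hxy
    · rw [← hn.1, ← hn.2]
      exact h i (by omega) n
    · rw [← hn.1, ← hn.2]
      exact trace_symm (h i (by omega) n)

/-- an edge of the trace crossing a cut time is the bridge -/
theorem cute {S : ℕ → V d} {b : ℕ} (hb : IsCut S b) {x y : V d} (h : Trace S x y)
    (hx : ∃ t ≤ b, S t = x) (hy : ∃ t, b < t ∧ S t = y) : y = S (b + 1) := by
  obtain ⟨t, ht, rfl⟩ := hx
  obtain ⟨t', ht', rfl⟩ := hy
  obtain ⟨n, ⟨h1, h2⟩ | ⟨h1, h2⟩⟩ := h
  · have hn : n ≤ b := by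
      by_contra hc
      exact hb t n ht (not_le.mp hc) h1.symm
    have hn' : b < n + 1 := by
      by_contra hc
      exact hb (n + 1) t' (not_lt.mp hc) ht' h2
    have : n = b := by omega
    rw [← this, h2]
  · exfalso
    have hn : b < n := by
      by_contra hc
      exact hb n t' (not_lt.mp hc) ht' h1
    exact hb t (n + 1) ht (by omega) h2.symm

theorem ennreal_half {a b : ENNReal} (ha : a ≠ ⊤)
    (h : a ≤ b + ENNReal.ofReal (1 / 4) * a) : a / 2 ≤ b := by
  by_cases hb : b = ⊤
  · rw [hb]; exact le_top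
  lift a to NNReal using ha
  lift b to NNReal using hb
  have h1 : (a : ℝ) ≤ b + 1 / 4 * a := by
    have h2 : ENNReal.ofReal (1 / 4) = ((1 / 4 : NNReal) : ENNReal) := by
      rw [ENNReal.ofReal, ENNReal.coe_inj]
      ext
      rw [Real.coe_toNNReal _ (by norm_num)]
      norm_num
    rw [h2] at h
    have h3 : a ≤ b + 1 / 4 * a := by exact_mod_cast h
    have h4 := (NNReal.coe_le_coe.mpr h3)
    push_cast at h4
    exact h4
  have h5 : (a : ENNReal) / 2 = ((a / 2 : NNReal) : ENNReal) := by
    rw [ENNReal.coe_div (by norm_num)]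
    norm_num
  rw [h5, ENNReal.coe_le_coe, ← NNReal.coe_le_coe]
  push_cast
  have := a.2
  have ha0 : (0 : ℝ) ≤ a := a.2
  linarith

theorem main (hONE : S_ONE) (hSTG : S_STG2a) (hCROSS : S_CROSS) : S_QL1 := by
  intro d Ω _ μ _ p X hp hp1 hX i hi hReg s j N K pm E l hpm hpm' hE hK hKN hEs hl hlK
  classical
  obtain ⟨i', rfl⟩ : ∃ i', i = i' + 1 := ⟨i - 1, by omega⟩
  -- the last cut time
  obtain ⟨k0, hk0, hk0max⟩ := Finset.exists_max_image K id hK
  simp only [id] at hk0max
  set E' : Set Ω := E ∩ A X (i' + 1) with hE'def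
  have hE'meas : MeasurableSet[past X (i' + 1) 0] E' :=
    ((sig0_le X hi 0) E hE).inter (meas_A X hi 0)
  have hnull : μ {ω | ¬ Reg X (i' + 1) ω} = 0 := hReg
  have hEE' : μ E ≤ μ E' := by
    calc μ E ≤ μ (E' ∪ {ω | ¬ Reg X (i' + 1) ω}) := by
          refine measure_mono fun ω hω => ?_
          by_cases hr : Reg X (i' + 1) ω
          · exact Or.inl ⟨hω, Reg_A hr⟩
          · exact Or.inr hr
      _ ≤ μ E' + μ {ω | ¬ Reg X (i' + 1) ω} := measure_union_le _ _
      _ = μ E' := by rw [hnull, add_zero]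
  by_cases hemp : E' = ∅
  · rw [hemp, measure_empty] at hEE'
    have : μ E = 0 := le_antisymm hEE' bot_le
    rw [this]
    simp
  obtain ⟨ω0, hω0⟩ := Set.nonempty_iff_ne_empty.mpr hemp
  set F : Finset (V d) := (Finset.range (j + k0 + 1)).image s with hF
  set B : Finset (V d) := {s (j + k0 + 1)} with hB
  have hkN := hKN k0 hk0
  have hs0 : s 0 = 0 := by
    rw [← (hEs ω0 hω0.1).1 0 (Nat.zero_le _)]
    exact hX.start 0 ω0
  have memF : ∀ z, z ∈ F ↔ ∃ t ≤ j + k0, s t = z := by
    intro z
    rw [hF, Finset.mem_image]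
    constructor
    · rintro ⟨t, ht, rfl⟩
      exact ⟨t, by rw [Finset.mem_range] at ht; omega, rfl⟩
    · rintro ⟨t, ht, rfl⟩
      exact ⟨t, by rw [Finset.mem_range]; omega, rfl⟩
  have h0F : (0 : V d) ∈ F := (memF 0).2 ⟨0, Nat.zero_le _, hs0⟩
  have hxF : s j ∈ F := (memF _).2 ⟨j, by omega, rfl⟩
  have hFB : Disjoint F B := by
    rw [hB, Finset.disjoint_singleton_right, memF]
    rintro ⟨t, ht, hts⟩
    have h1 := (hEs ω0 hω0.1).1 t (by omega)
    have h2 := (hEs ω0 hω0.1).1 (j + k0 + 1) (by omega)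
    exact (hEs ω0 hω0.1).2.2 k0 hk0 t (j + k0 + 1) ht (by omega) (by
      show X 0 t ω0 = X 0 (j + k0 + 1) ω0
      rw [h1, h2, hts])
  have hone := hONE d Ω μ p X hp hp1 hX (i' + 1) E' hE'meas F B (s j) l (1 / 4) hl h0F hxF hFB
    (by norm_num) (by
      intro ω hω
      obtain ⟨hωE, hωA⟩ := hω
      obtain ⟨hagree, hcj, hck⟩ := hEs ω hωE
      have hpath : PathHyp (fun n => X 0 n ω) := hωA.1
      have hnest : ∀ m < i', ∀ n, Trace (fun s => X m s ω) (X (m + 1) n ω)
          (X (m + 1) (n + 1) ω) := by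
        have := hωA.2
        simp only [Set.mem_iInter, Set.mem_ofPred_eq] at this
        intro m hm n
        exact this m (by omega) n
      have hG : ∀ x y, env X (i' + 1) ω x y → Trace (fun n => X 0 n ω) x y := by
        intro x y hxy
        exact nest (Y := fun m n => X m n ω) i' hnest x y hxy
      have hGs : ∀ x y, env X (i' + 1) ω x y → env X (i' + 1) ω y x := by
        intro x y hxy
        exact trace_symm hxy
      obtain ⟨q, ρ, hρ, hq01, hqB, hqx, hq0, hqh, hqρ, hρs⟩ :=
        hSTG d (p (i' + 1)) pm (fun n => X 0 n ω) (env X (i' + 1) ω) j (j + k0)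
          (K.image (fun k => j + k)) hpm (fun e => hpm' (i' + 1) le_rfl e) (hp1 (i' + 1)) hpath
          hG hGs hcj (Finset.mem_image.mpr ⟨k0, hk0, rfl⟩) (by
            intro b hb
            obtain ⟨k, hk, rfl⟩ := Finset.mem_image.mp hb
            exact ⟨by have := hKN k hk; omega, by have := hk0max k hk; omega, hck k hk⟩)
      have ej : X 0 j ω = s j := hagree j (by omega)
      have eB : X 0 (j + k0 + 1) ω = s (j + k0 + 1) := hagree _ (by omega)
      refine ⟨q, ρ, hρ, hq01, ?_, ?_, ?_, ?_, ?_, ?_⟩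
      · intro z hz
        rw [hB, Finset.mem_singleton] at hz
        rw [hz, ← eB]
        exact hqB
      · rw [← ej]; exact hqx
      · intro z hz e hzF hzB
        obtain ⟨t, ht, rfl⟩ := (memF z).1 hz
        unfold Pool.Agent.Helper51.BW.trans
        rw [if_neg]
        intro hc
        have h1 := hG _ _ hc
        have et : X 0 t ω = s t := hagree t (by omega)
        -- the other end is a point of the path
        have h2 : ∃ t', X 0 t' ω = s t + dir e := by
          obtain ⟨n, hn | hn⟩ := h1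
          · exact ⟨n + 1, hn.2⟩
          · exact ⟨n, hn.1⟩
        obtain ⟨t', ht'⟩ := h2
        by_cases hle : t' ≤ j + k0
        · apply hzF
          rw [memF]
          exact ⟨t', hle, by rw [← hagree t' (by omega)]; exact ht'⟩
        · apply hzB
          rw [hB, Finset.mem_singleton, ← eB]
          exact cute (hck k0 hk0) h1 ⟨t, ht, et⟩ ⟨t', not_le.mp hle, ht'⟩
      · intro z hz hzx
        obtain ⟨t, ht, rfl⟩ := (memF z).1 hz
        have et : X 0 t ω = s t := hagree t (by omega)
        have := hqh t ht (by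
          show X 0 t ω ≠ X 0 j ω
          rw [et, ej]; exact hzx)
        simp only [et] at this
        exact this
      · simp only [ej] at hqρ
        exact hqρ
      · rw [hq0, zero_add]
        have hsum : ∑ b ∈ K.image (fun k => j + k),
            Real.exp (ip (lhat (p (i' + 1))) ((fun n => X 0 n ω) j - (fun n => X 0 n ω) b))
            = ∑ k ∈ K, Real.exp (ip (lhat (p (i' + 1))) (s j - s (j + k))) := by
          rw [Finset.sum_image (fun a _ b _ hab => by simpa using hab)]
          refine Finset.sum_congr rfl fun k hk => ?_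
          have := hKN k hk
          show Real.exp (ip (lhat (p (i' + 1))) (X 0 j ω - X 0 (j + k) ω)) = _
          rw [ej, hagree (j + k) (by omega)]
        rw [hsum] at hρs
        calc ρ * ((l : ℝ) - 1)
            ≤ ρ * (pm / 4 * ∑ k ∈ K, Real.exp (ip (lhat (p (i' + 1))) (s j - s (j + k)))) :=
              mul_le_mul_of_nonneg_left hlK hρ
          _ = 1 / 4 * (ρ * (pm * ∑ k ∈ K,
              Real.exp (ip (lhat (p (i' + 1))) (s j - s (j + k))))) := by ring
          _ ≤ 1 / 4 * 1 := by gcongr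
          _ = 1 / 4 := by norm_num)
  -- conclusion
  have hcov : μ E' ≤ μ (E ∩ {ω | HitsGE (fun n => X (i' + 1) n ω) l (s j)})
      + ENNReal.ofReal (1 / 4) * μ E' := by
    refine le_trans ?_ (add_le_add le_rfl hone)
    calc μ E' ≤ μ ((E ∩ {ω | HitsGE (fun n => X (i' + 1) n ω) l (s j)}) ∪
          (E' ∩ {ω | ∃ n, X (i' + 1) n ω ∈ B ∧ (∀ s < n, X (i' + 1) s ω ∉ B) ∧
            ((Finset.range n).filter (fun s' => X (i' + 1) s' ω = s j)).card < l}) ∪
          {ω | ¬ Reg X (i' + 1) ω}) := by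
          refine measure_mono fun ω hω => ?_
          by_cases hr : Reg X (i' + 1) ω
          · refine Or.inl ?_
            by_cases hh : HitsGE (fun n => X (i' + 1) n ω) l (s j)
            · exact Or.inl ⟨hω.1, hh⟩
            · refine Or.inr ⟨hω, ?_⟩
              obtain ⟨hagree, hcj, hck⟩ := hEs ω hω.1
              have hne : ∀ m, Trace (fun n => X 0 n ω) (X (i' + 1) m ω)
                  (X (i' + 1) (m + 1) ω) := by
                intro m
                refine nest (Y := fun m n => X m n ω) (i' + 1) hr.2.1 _ _ ?_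
                exact ⟨m, Or.inl ⟨rfl, rfl⟩⟩
              obtain ⟨n, hn1, hn2, hn3⟩ := hCROSS d (fun n => X 0 n ω)
                (fun n => X (i' + 1) n ω) (j + k0) hω.2.1 (hck k0 hk0) (hX.start (i' + 1) ω)
                hne hr.2.2
              have hex : ∃ n, X (i' + 1) n ω ∈ B := by
                refine ⟨n + 1, ?_⟩
                rw [hB, Finset.mem_singleton, ← hagree (j + k0 + 1) (by omega)]
                exact hn2
              refine ⟨Nat.find hex, Nat.find_spec hex, fun s' hs' => Nat.find_min hex hs', ?_⟩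
              by_contra hc
              exact hh ⟨Nat.find hex, not_lt.mp hc⟩
          · exact Or.inr hr
      _ ≤ μ ((E ∩ {ω | HitsGE (fun n => X (i' + 1) n ω) l (s j)}) ∪
          (E' ∩ {ω | ∃ n, X (i' + 1) n ω ∈ B ∧ (∀ s < n, X (i' + 1) s ω ∉ B) ∧
            ((Finset.range n).filter (fun s' => X (i' + 1) s' ω = s j)).card < l})) +
          μ {ω | ¬ Reg X (i' + 1) ω} := measure_union_le _ _
      _ ≤ _ := by
          rw [hnull, add_zero]
          exact measure_union_le _ _
  refine le_trans (ENNReal.div_le_div_right hEE' 2) ?_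
  exact ennreal_half (measure_ne_top μ E') hcov

end Pool.Agent.Helper16.BW.QL1
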